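import Mathlib

/-!
# Counting the partners of a lattice point on a sphere

For a fixed lattice point `x` the vectors `v ≠ 0` in a box of radius `R` with
`p |v|² + 2 x · v = 0` for some positive integer `p` number at most `(2 R + 1)^m` times twice the
maximal number of divisors of the integers in question, in dimension `m + 1`.
-/

set_option autoImplicit false

namespace Pool.Agent.H221.TV

lemma card_pm {D : Finset ℕ} (f : ℕ → ℤ) (T : Finset ℤ)
    (h : ∀ t ∈ T, ∃ q ∈ D, t = f q ∨ t = - f q) : T.card ≤ 2 * D.card := by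
  classical
  have h1 : T ⊆ D.biUnion (fun q => {f q, - f q}) := by
    intro t ht
    obtain ⟨q, hq, h2⟩ := h t ht
    rw [Finset.mem_biUnion]
    refine ⟨q, hq, ?_⟩
    rcases h2 with h2 | h2 <;> simp [h2]
  refine (Finset.card_le_card h1).trans (Finset.card_biUnion_le.trans ?_)
  calc ∑ q ∈ D, ({f q, - f q} : Finset ℤ).card ≤ ∑ _q ∈ D, 2 :=
        Finset.sum_le_sum fun q _ => Finset.card_le_two
    _ = 2 * D.card := by rw [Finset.sum_const, smul_eq_mul, mul_comm]

/-- The equation for the last coordinate has few solutions. -/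
lemma last_coord (p : ℕ) (hp : 0 < p) (A B X t : ℤ) (hB : 0 < B)
    (h : (p : ℤ) * (B + t ^ 2) + (A + 2 * X * t) = 0) :
    ∃ q ∈ (A ^ 2 + 4 * X ^ 2 * B).natAbs.divisors,
      t = (Nat.sqrt (q - B.natAbs) : ℤ) ∨ t = - (Nat.sqrt (q - B.natAbs) : ℤ) := by
  have hp' : (0 : ℤ) < p := by exact_mod_cast hp
  have hq : 0 < B + t ^ 2 := by positivity
  have hdvd : (B + t ^ 2) ∣ (A ^ 2 + 4 * X ^ 2 * B) := by
    have h1 : (B + t ^ 2) ∣ (A + 2 * X * t) := ⟨-(p : ℤ), by linarith⟩
    have h2 : A ^ 2 + 4 * X ^ 2 * B = (A + 2 * X * t) * (A - 2 * X * t) + (B + t ^ 2) * (4 * X ^ 2) := by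
      ring
    rw [h2]
    exact (h1.mul_right _).add (Dvd.intro _ rfl)
  have hne : A ^ 2 + 4 * X ^ 2 * B ≠ 0 := by
    intro h0
    have hA : A ^ 2 = 0 := by
      have : 0 ≤ 4 * X ^ 2 * B := by positivity
      nlinarith [sq_nonneg A]
    have hX : X ^ 2 = 0 := by
      have h1 : 4 * X ^ 2 * B = 0 := by linarith
      rcases mul_eq_zero.1 h1 with h2 | h2
      · linarith
      · omega
    have hA' : A = 0 := by simpa using hA
    have hX' : X = 0 := by simpa using hX
    rw [hA', hX'] at h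
    simp only [mul_zero, zero_mul, add_zero] at h
    have := mul_pos hp' hq
    omega
  refine ⟨(B + t ^ 2).natAbs, ?_, ?_⟩
  · rw [Nat.mem_divisors]
    exact ⟨Int.natAbs_dvd_natAbs.2 hdvd, Int.natAbs_ne_zero.2 hne⟩
  · have h3 : (B + t ^ 2).natAbs - B.natAbs = t.natAbs * t.natAbs := by
      have e1 : (B + t ^ 2).natAbs = B.natAbs + (t ^ 2).natAbs := by
        zify
        rw [abs_of_pos hq, abs_of_pos hB, abs_of_nonneg (sq_nonneg t)]
      rw [e1, Nat.add_sub_cancel_left, Int.natAbs_pow, pow_two]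
    rw [h3, Nat.sqrt_eq]
    rcases abs_cases t with ⟨h4, _⟩ | ⟨h4, _⟩
    · left
      rw [Int.natCast_natAbs, h4]
    · right
      rw [Int.natCast_natAbs, h4]; ring

lemma last_coord_zero (p : ℕ) (hp : 0 < p) (X t : ℤ) (ht : t ≠ 0)
    (h : (p : ℤ) * t ^ 2 + 2 * X * t = 0) :
    ∃ q ∈ (2 * X).natAbs.divisors, t = (q : ℤ) ∨ t = - (q : ℤ) := by
  have hp' : (0 : ℤ) < p := by exact_mod_cast hp
  have h1 : (p : ℤ) * t = - (2 * X) := by
    have h2 : t * ((p : ℤ) * t + 2 * X) = 0 := by linarith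
    rcases mul_eq_zero.1 h2 with h3 | h3
    · exact absurd h3 ht
    · linarith
  refine ⟨t.natAbs, ?_, ?_⟩
  · rw [Nat.mem_divisors]
    refine ⟨Int.natAbs_dvd_natAbs.2 ?_, ?_⟩
    · exact ⟨-(p : ℤ), by linarith⟩
    · intro h0
      have h2 : 2 * X = 0 := Int.natAbs_eq_zero.1 h0
      rw [h2, neg_zero] at h1
      rcases mul_eq_zero.1 h1 with h3 | h3
      · omega
      · exact ht h3
  · rcases abs_cases t with ⟨h4, _⟩ | ⟨h4, _⟩
    · left; rw [Int.natCast_natAbs, h4]
    · right; rw [Int.natCast_natAbs, h4]; ring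

/-- The number of the primes (or positive integers) with a partner. -/
theorem count_partners (m : ℕ) (x : Fin (m + 1) → ℤ) (Λ R Q : ℕ) (hx : ∀ i, |x i| ≤ (Λ : ℤ))
    (hQ : ∀ N : ℕ, 0 < N → N ≤ 4 * Λ ^ 2 * R ^ 2 * (m ^ 2 + m) + 2 * Λ → N.divisors.card ≤ Q)
    (P : Finset ℕ) (hP : ∀ p ∈ P, 0 < p) (v : ℕ → (Fin (m + 1) → ℤ)) (hv0 : ∀ p ∈ P, v p ≠ 0)
    (hvR : ∀ p ∈ P, ∀ i, |v p i| ≤ (R : ℤ))
    (heq : ∀ p ∈ P, (p : ℤ) * ∑ i, v p i ^ 2 + 2 * ∑ i, x i * v p i = 0) :
    P.card ≤ (2 * R + 1) ^ m * (2 * Q) := by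
  classical
  let box : Finset (Fin m → ℤ) := Fintype.piFinset fun _ => Finset.Icc (-(R : ℤ)) R
  have hbox : box.card = (2 * R + 1) ^ m := by
    simp only [box, Fintype.card_piFinset, Finset.prod_const, Finset.card_univ, Fintype.card_fin,
      Int.card_Icc]
    congr 1
    omega
  let w : ℕ → (Fin m → ℤ) := fun p i => v p i.castSucc
  have hw : ∀ p ∈ P, w p ∈ box := by
    intro p hp
    simp only [box, Fintype.mem_piFinset, Finset.mem_Icc]
    intro i
    exact abs_le.1 (hvR p hp i.castSucc)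
  rw [Finset.card_eq_sum_card_fiberwise (f := w) (t := box) hw]
  have hfib : ∀ b ∈ box, (P.filter (fun p => w p = b)).card ≤ 2 * Q := by
    intro b hb
    set Pb := P.filter (fun p => w p = b) with hPb
    have hmem : ∀ p ∈ Pb, p ∈ P ∧ w p = b := by
      intro p hp
      rw [hPb, Finset.mem_filter] at hp
      exact hp
    let t : ℕ → ℤ := fun p => v p (Fin.last m)
    have hinj : Set.InjOn t Pb := by
      intro p hp p' hp' htt
      obtain ⟨h1, h2⟩ := hmem p hp
      obtain ⟨h1', h2'⟩ := hmem p' hp'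
      have hvv : v p = v p' := by
        funext i
        refine Fin.lastCases ?_ (fun j => ?_) i
        · exact htt
        · have := congrFun (h2.trans h2'.symm) j
          exact this
      have e1 := heq p h1
      have e2 := heq p' h1'
      rw [← hvv] at e2
      have hpos : 0 < ∑ i, v p i ^ 2 := by
        obtain ⟨i, hi⟩ := Function.ne_iff.1 (hv0 p h1)
        refine Finset.sum_pos' (fun j _ => sq_nonneg _) ⟨i, Finset.mem_univ _, ?_⟩
        have hi' : v p i ≠ 0 := hi
        positivity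
      have e3 : (p : ℤ) * ∑ i, v p i ^ 2 = (p' : ℤ) * ∑ i, v p i ^ 2 := by linarith
      have := mul_right_cancel₀ hpos.ne' e3
      exact_mod_cast this
    set B : ℤ := ∑ i, b i ^ 2 with hB
    set A : ℤ := 2 * ∑ i, x (Fin.castSucc i) * b i with hA
    set X : ℤ := x (Fin.last m) with hX
    have heq' : ∀ p ∈ Pb, (p : ℤ) * (B + t p ^ 2) + (A + 2 * X * t p) = 0 := by
      intro p hp
      obtain ⟨h1, h2⟩ := hmem p hp
      have e1 := heq p h1
      rw [Fin.sum_univ_castSucc, Fin.sum_univ_castSucc] at e1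
      have e2 : ∀ i : Fin m, v p i.castSucc = b i := fun i => congrFun h2 i
      simp only [e2] at e1
      rw [hB, hA]
      linarith
    rw [← Finset.card_image_of_injOn hinj]
    have hX' : |X| ≤ Λ := hx _
    have hbR : ∀ i, |b i| ≤ (R : ℤ) := by
      intro i
      simp only [box, Fintype.mem_piFinset, Finset.mem_Icc] at hb
      exact abs_le.2 (hb i)
    by_cases hb0 : b = 0
    · -- the first coordinates vanish
      have hB0 : B = 0 := by rw [hB, hb0]; simp
      have hA0 : A = 0 := by rw [hA, hb0]; simp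
      have h1 : ∀ s ∈ Pb.image t, ∃ q ∈ (2 * X).natAbs.divisors, s = ((q : ℕ) : ℤ) ∨ s = - ((q : ℕ) : ℤ) := by
        intro s hs
        obtain ⟨p, hp, rfl⟩ := Finset.mem_image.1 hs
        obtain ⟨h1, h2⟩ := hmem p hp
        have e1 := heq' p hp
        rw [hB0, hA0, zero_add, zero_add] at e1
        have ht : t p ≠ 0 := by
          intro h0
          apply hv0 p h1
          funext i
          refine Fin.lastCases ?_ (fun j => ?_) i
          · exact h0
          · have := congrFun h2 j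
            rw [hb0] at this
            exact this
        exact last_coord_zero p (hP p h1) X (t p) ht e1
      have h2 := card_pm (fun q : ℕ => (q : ℤ)) _ h1
      rcases Nat.eq_zero_or_pos (2 * X).natAbs with h0 | h0
      · rw [h0] at h2
        simp only [Nat.divisors_zero, Finset.card_empty, mul_zero] at h2
        omega
      · have h3 := hQ (2 * X).natAbs h0 (by
          have e1 : (2 * X).natAbs ≤ 2 * Λ := by
            zify
            rw [abs_mul]
            have : |(2 : ℤ)| = 2 := by norm_num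
            rw [this]
            linarith
          omega)
        omega
    · have hBpos : 0 < B := by
        obtain ⟨i, hi⟩ := Function.ne_iff.1 hb0
        rw [hB]
        refine Finset.sum_pos' (fun j _ => sq_nonneg _) ⟨i, Finset.mem_univ _, ?_⟩
        have hi' : b i ≠ 0 := hi
        positivity
      have h1 : ∀ s ∈ Pb.image t, ∃ q ∈ (A ^ 2 + 4 * X ^ 2 * B).natAbs.divisors,
          s = (Nat.sqrt (q - B.natAbs) : ℤ) ∨ s = - (Nat.sqrt (q - B.natAbs) : ℤ) := by
        intro s hs
        obtain ⟨p, hp, rfl⟩ := Finset.mem_image.1 hs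
        exact last_coord p (hP p (hmem p hp).1) A B X (t p) hBpos (heq' p hp)
      have h2 := card_pm (fun q : ℕ => (Nat.sqrt (q - B.natAbs) : ℤ)) _ h1
      rcases Nat.eq_zero_or_pos (A ^ 2 + 4 * X ^ 2 * B).natAbs with h0 | h0
      · rw [h0] at h2
        simp only [Nat.divisors_zero, Finset.card_empty, mul_zero] at h2
        omega
      · have hAb : |A| ≤ 2 * (m * (Λ * R)) := by
          rw [hA, abs_mul, abs_of_pos (by norm_num : (0 : ℤ) < 2)]
          refine mul_le_mul_of_nonneg_left ?_ (by norm_num)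
          refine (Finset.abs_sum_le_sum_abs _ _).trans ?_
          calc ∑ i : Fin m, |x i.castSucc * b i| ≤ ∑ _i : Fin m, ((Λ : ℤ) * R) := by
                refine Finset.sum_le_sum fun i _ => ?_
                rw [abs_mul]
                exact mul_le_mul (hx _) (hbR i) (abs_nonneg _) (by positivity)
            _ = m * (Λ * R) := by simp
        have hBb : B ≤ m * R ^ 2 := by
          rw [hB]
          calc ∑ i : Fin m, b i ^ 2 ≤ ∑ _i : Fin m, ((R : ℤ) ^ 2) := by
                refine Finset.sum_le_sum fun i _ => ?_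
                rw [← sq_abs (b i)]
                exact pow_le_pow_left₀ (abs_nonneg _) (hbR i) 2
            _ = m * R ^ 2 := by simp
        have hA2 : A ^ 2 ≤ (2 * (m * (Λ * R))) ^ 2 := by
          rw [← sq_abs A]
          exact pow_le_pow_left₀ (abs_nonneg _) hAb 2
        have hX2 : X ^ 2 ≤ Λ ^ 2 := by
          rw [← sq_abs X]
          exact pow_le_pow_left₀ (abs_nonneg _) hX' 2
        have hNb : A ^ 2 + 4 * X ^ 2 * B ≤ 4 * Λ ^ 2 * R ^ 2 * (m ^ 2 + m) := by
          have h3 : X ^ 2 * B ≤ (Λ : ℤ) ^ 2 * (m * R ^ 2) :=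
            mul_le_mul hX2 hBb hBpos.le (by positivity)
          nlinarith
        have h3 := hQ (A ^ 2 + 4 * X ^ 2 * B).natAbs h0 (by
          have e0 : 0 ≤ A ^ 2 + 4 * X ^ 2 * B := by positivity
          have e1 : (A ^ 2 + 4 * X ^ 2 * B).natAbs ≤ 4 * Λ ^ 2 * R ^ 2 * (m ^ 2 + m) := by
            zify
            rw [abs_of_nonneg e0]
            exact hNb
          omega)
        omega
  calc ∑ b ∈ box, (P.filter (fun p => w p = b)).card ≤ ∑ _b ∈ box, 2 * Q :=
        Finset.sum_le_sum hfib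
    _ = (2 * R + 1) ^ m * (2 * Q) := by rw [Finset.sum_const, smul_eq_mul, hbox]

end Pool.Agent.H221.TV
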