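import Mathlib
import Pool.Graph.R_seed8.TH998.Tor.Basic

/-!
# Vanishing order of eigenfunctions on tori: residue classes and the rank inequality

If a measure `a` on a finite set `S` of lattice points (all weights nonzero) annihilates the
polynomials of degree at most `D`, and `p` is a prime with `2 d (p - 1) ≤ D`, then every subset
`T` of `S` whose points are pairwise incongruent modulo `p` has at most `|S| / 2` elements.
-/

set_option autoImplicit false

namespace Pool.Agent.H221.TV

open Pool.Agent.TH998.Tor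

variable {d : ℕ}

/-- The polynomial which is the indicator function of the residue class of `s` modulo `p`. -/
def ind (p : ℕ) (s x : Fin d → ℤ) : ℤ := ∏ i, (1 - (x i - s i) ^ (p - 1))

lemma ind_IP (p : ℕ) (s : Fin d → ℤ) : IP (d * (p - 1)) (ind p s) := by
  have h1 := IP.prod (Finset.univ : Finset (Fin d)) (D := fun _ => p - 1)
    (F := fun i x => 1 - (x i - s i) ^ (p - 1)) (by
      intro i _
      have h1 : IP 1 (fun x : Fin d → ℤ => x i - s i) := (IP.coord i).sub (IP.const 1 (s i))
      have h2 := h1.pow (p - 1)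
      rw [mul_one] at h2
      exact (IP.const _ 1).sub h2)
  have h2 : ind p s = fun x : Fin d → ℤ => ∏ i, (1 - (x i - s i) ^ (p - 1)) := rfl
  rw [h2]
  simpa using h1

lemma ind_self (p : ℕ) (hp : p.Prime) (s : Fin d → ℤ) : ind p s s = 1 := by
  have hp1 : p - 1 ≠ 0 := by
    have := hp.one_lt
    omega
  unfold ind
  apply Finset.prod_eq_one
  intro i _
  rw [sub_self, zero_pow hp1, sub_zero]

lemma ind_off (p : ℕ) [hp : Fact p.Prime] (s x : Fin d → ℤ) (h : ¬ ∀ i, (p : ℤ) ∣ x i - s i) :
    ((ind p s x : ℤ) : ZMod p) = 0 := by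
  push Not at h
  obtain ⟨i, hi⟩ := h
  unfold ind
  push_cast
  refine Finset.prod_eq_zero (Finset.mem_univ i) ?_
  have h1 : (((x i : ℤ) : ZMod p) - ((s i : ℤ) : ZMod p)) ≠ 0 := by
    rw [← Int.cast_sub]
    rwa [Ne, ZMod.intCast_zmod_eq_zero_iff_dvd]
  rw [ZMod.pow_card_sub_one_eq_one h1, sub_self]

open Matrix in
/-- The rank inequality. -/
theorem rank_ineq (p : ℕ) (hp : p.Prime) (S : Finset (Fin d → ℤ)) (a : (Fin d → ℤ) → ℂ)
    (ha : ∀ x ∈ S, a x ≠ 0) (D : ℕ) (hD : 2 * (d * (p - 1)) ≤ D)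
    (hkill : ∀ F, IP D F → ∑ x ∈ S, a x * ((F x : ℤ) : ℂ) = 0)
    (T : Finset (Fin d → ℤ)) (hTS : T ⊆ S)
    (hT : ∀ s ∈ T, ∀ t ∈ T, s ≠ t → ¬ ∀ i, (p : ℤ) ∣ t i - s i) :
    2 * T.card ≤ S.card := by
  classical
  have : Fact p.Prime := ⟨hp⟩
  -- the matrix of values
  let A : Matrix T S ℂ := Matrix.of fun t x => ((ind p t.1 x.1 : ℤ) : ℂ)
  let M : Matrix T T ℤ := Matrix.of fun s t => ind p s.1 t.1
  have hdet : M.det ≠ 0 := by
    intro h0
    have h4 : ((M.map (Int.castRingHom (ZMod p))).det) = 0 := by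
      have := (Int.castRingHom (ZMod p)).map_det M
      rw [h0, map_zero] at this
      exact this.symm
    have h5 : M.map (Int.castRingHom (ZMod p)) = 1 := by
      ext s t
      by_cases hst : s = t
      · subst hst
        rw [Matrix.one_apply_eq, Matrix.map_apply]
        show (((ind p s.1 s.1 : ℤ)) : ZMod p) = 1
        rw [ind_self p hp]; simp
      · rw [Matrix.one_apply_ne hst, Matrix.map_apply]
        exact ind_off p s.1 t.1 (hT s.1 s.2 t.1 t.2 (fun h => hst (Subtype.ext h)))
    rw [h5, Matrix.det_one] at h4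
    exact one_ne_zero h4
  have hdet' : (M.map (Int.castRingHom ℂ)).det ≠ 0 := by
    have := (Int.castRingHom ℂ).map_det M
    intro h0
    have h6 : ((Int.castRingHom ℂ) M.det) = 0 := by rw [this]; exact h0
    have h7 : ((M.det : ℤ) : ℂ) = 0 := h6
    exact hdet (by exact_mod_cast h7)
  -- injectivity of the transpose
  have hinj : Function.Injective (Aᵀ).mulVecLin := by
    rw [← LinearMap.ker_eq_bot, LinearMap.ker_eq_bot']
    intro u hu
    have h1 : (M.map (Int.castRingHom ℂ))ᵀ.mulVec u = 0 := by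
      funext t
      have h2 := congrFun hu ⟨t.1, hTS t.2⟩
      simp only [Matrix.mulVecLin_apply, Matrix.mulVec, dotProduct, Matrix.transpose_apply,
        Pi.zero_apply] at h2 ⊢
      exact h2
    exact Matrix.eq_zero_of_mulVec_eq_zero (by rw [Matrix.det_transpose]; exact hdet') h1
  have hrankT : (Aᵀ).rank = T.card := by
    unfold Matrix.rank
    rw [LinearMap.finrank_range_of_inj hinj]
    simp
  have hrank : A.rank = T.card := by rw [← Matrix.rank_transpose, hrankT]
  let w : S → ℂ := fun x => a x.1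
  have hw : IsUnit (Matrix.diagonal w).det := by
    rw [Matrix.det_diagonal, isUnit_iff_ne_zero, Finset.prod_ne_zero_iff]
    intro x _
    exact ha x.1 x.2
  have hrankK : (A * Matrix.diagonal w).rank = T.card := by
    rw [Matrix.rank_mul_eq_left_of_isUnit_det _ _ hw, hrank]
  -- composition is zero
  have hzero : (A * Matrix.diagonal w) * Aᵀ = 0 := by
    ext s t
    rw [Matrix.mul_apply, Matrix.zero_apply]
    have hIP := ((ind_IP p s.1).mul (ind_IP p t.1)).mono (D' := D) (by omega)
    have h1 := hkill _ hIP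
    rw [← Finset.sum_coe_sort] at h1
    rw [← h1]
    refine Finset.sum_congr rfl fun x _ => ?_
    rw [Matrix.mul_diagonal, Matrix.transpose_apply]
    show ((ind p s.1 x.1 : ℤ) : ℂ) * a x.1 * ((ind p t.1 x.1 : ℤ) : ℂ) =
      a x.1 * ((ind p s.1 x.1 * ind p t.1 x.1 : ℤ) : ℂ)
    push_cast
    ring
  have hle : LinearMap.range (Aᵀ).mulVecLin ≤ LinearMap.ker (A * Matrix.diagonal w).mulVecLin := by
    rintro _ ⟨u, rfl⟩
    rw [LinearMap.mem_ker, Matrix.mulVecLin_apply, Matrix.mulVecLin_apply, Matrix.mulVec_mulVec,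
      hzero, Matrix.zero_mulVec]
  have h1 := Submodule.finrank_mono hle
  have h2 := LinearMap.finrank_range_add_finrank_ker (A * Matrix.diagonal w).mulVecLin
  have h3 : Module.finrank ℂ (LinearMap.range (A * Matrix.diagonal w).mulVecLin) = T.card := hrankK
  have h4 : Module.finrank ℂ (LinearMap.range (Aᵀ).mulVecLin) = T.card := hrankT
  rw [h3] at h2
  rw [h4] at h1
  have h5 : Module.finrank ℂ (S → ℂ) = S.card := by simp
  omega

/-- `x` has a partner: another point of `S` in the same class modulo `p`. -/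
def Partner (S : Finset (Fin d → ℤ)) (p : ℕ) (x : Fin d → ℤ) : Prop :=
  ∃ y ∈ S, y ≠ x ∧ ∀ i, (p : ℤ) ∣ y i - x i

open Classical in
/-- At least half of the points have a partner. -/
theorem half_partner (p : ℕ) (hp : p.Prime) (S : Finset (Fin d → ℤ)) (a : (Fin d → ℤ) → ℂ)
    (ha : ∀ x ∈ S, a x ≠ 0) (D : ℕ) (hD : 2 * (d * (p - 1)) ≤ D)
    (hkill : ∀ F, IP D F → ∑ x ∈ S, a x * ((F x : ℤ) : ℂ) = 0) :
    S.card ≤ 2 * (S.filter (fun x => Partner S p x)).card := by
  have h1 := rank_ineq p hp S a ha D hD hkill (S.filter (fun x => ¬ Partner S p x))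
    (Finset.filter_subset _ _) (by
      intro s hs t ht hst hcong
      rw [Finset.mem_filter] at hs ht
      exact hs.2 ⟨t, ht.1, fun h => hst h.symm, hcong⟩)
  have h2 := Finset.card_filter_add_card_filter_not (s := S) (fun x => Partner S p x)
  omega

open Classical in
/-- Some point has partners for at least half of the primes. -/
theorem exists_partners (S : Finset (Fin d → ℤ)) (hS : S.Nonempty) (a : (Fin d → ℤ) → ℂ)
    (ha : ∀ x ∈ S, a x ≠ 0) (D : ℕ) (P : Finset ℕ) (hP : ∀ p ∈ P, p.Prime)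
    (hD : ∀ p ∈ P, 2 * (d * (p - 1)) ≤ D)
    (hkill : ∀ F, IP D F → ∑ x ∈ S, a x * ((F x : ℤ) : ℂ) = 0) :
    ∃ x ∈ S, P.card ≤ 2 * (P.filter (fun p => Partner S p x)).card := by
  by_contra hcon
  push Not at hcon
  have h1 : ∑ x ∈ S, 2 * (P.filter (fun p => Partner S p x)).card < ∑ x ∈ S, P.card :=
    Finset.sum_lt_sum_of_nonempty hS hcon
  have h2 : ∑ x ∈ S, (P.filter (fun p => Partner S p x)).card =
      ∑ p ∈ P, (S.filter (fun x => Partner S p x)).card := by
    simp only [Finset.card_filter]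
    exact Finset.sum_comm
  have h3 : ∑ p ∈ P, S.card ≤ ∑ p ∈ P, 2 * (S.filter (fun x => Partner S p x)).card :=
    Finset.sum_le_sum fun p hp => half_partner p (hP p hp) S a ha D (hD p hp) hkill
  rw [← Finset.mul_sum, Finset.sum_const, smul_eq_mul] at h1
  rw [← Finset.mul_sum, Finset.sum_const, smul_eq_mul, ← h2] at h3
  have h4 : P.card * S.card = S.card * P.card := mul_comm _ _
  omega

end Pool.Agent.H221.TV
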