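import Mathlib
import Pool.Agent.H221.TV.Rank
import Pool.Agent.H221.TV.Count
import Pool.Graph.R_seed8.TH998.Tor.Primes
import Pool.Graph.R_pool_sql_team_3845a38e.H13.DivisorBound

/-!
# The interpolation degree of the lattice points on a sphere
-/

set_option autoImplicit false

namespace Pool.Agent.H221.TV

open Pool.Agent.TH998.Tor

/-- The primes in `(X / 8, X]`. -/
def PX (X : ℕ) : Finset ℕ := (Nat.primesLE X).filter (fun p => X / 8 < p)

lemma PX_prime {X p : ℕ} (hp : p ∈ PX X) : p.Prime := by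
  unfold PX at hp
  rw [Finset.mem_filter, Nat.primesLE_eq_filter_range, Finset.mem_filter] at hp
  exact hp.1.2

lemma PX_le {X p : ℕ} (hp : p ∈ PX X) : p ≤ X := by
  unfold PX at hp
  rw [Finset.mem_filter, Nat.primesLE_eq_filter_range, Finset.mem_filter, Finset.mem_range] at hp
  omega

lemma PX_gt {X p : ℕ} (hp : p ∈ PX X) : X < 8 * p := by
  unfold PX at hp
  rw [Finset.mem_filter] at hp
  have := (Nat.div_lt_iff_lt_mul (by norm_num : 0 < 8)).mp hp.2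
  omega

lemma PX_card (X : ℕ) (hX : 10 ^ 8 ≤ X) :
    Real.log 2 / 2 * X ≤ ((PX X).card : ℝ) * Real.log X := by
  have hX0 : (0 : ℝ) < X := by
    have : 0 < X := by omega
    exact_mod_cast this
  have h1 := Chebyshev.theta_ge X
  have h2 := error_small X hX
  have h3 : Chebyshev.theta ((X / 8 : ℕ) : ℝ) ≤ Real.log 2 / 4 * X := by
    refine (Chebyshev.theta_le_log4_mul_x (by positivity)).trans ?_
    have h4 : Real.log 4 = 2 * Real.log 2 := by
      rw [show (4 : ℝ) = 2 ^ 2 by norm_num, Real.log_pow]; norm_num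
    have h5 : ((X / 8 : ℕ) : ℝ) ≤ (X : ℝ) / 8 := by
      have := @Nat.cast_div_le ℝ _ _ _ X 8
      simpa using this
    rw [h4]
    have hl : 0 < Real.log 2 := Real.log_pos (by norm_num)
    nlinarith
  have h4 : Chebyshev.theta (X : ℝ) = Chebyshev.theta ((X / 8 : ℕ) : ℝ) + ∑ p ∈ PX X, Real.log p := by
    rw [Chebyshev.theta_eq_sum_primesLE_log, Chebyshev.theta_eq_sum_primesLE_log,
      ← Finset.sum_filter_add_sum_filter_not (Nat.primesLE X) (fun p => ¬ X / 8 < p)]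
    congr 1
    · apply Finset.sum_congr _ (fun _ _ => rfl)
      ext p
      rw [Finset.mem_filter, Nat.primesLE_eq_filter_range, Nat.primesLE_eq_filter_range,
        Finset.mem_filter, Finset.mem_filter, Finset.mem_range, Finset.mem_range]
      constructor
      · rintro ⟨⟨h, hp⟩, h'⟩
        exact ⟨by omega, hp⟩
      · rintro ⟨h, hp⟩
        exact ⟨⟨by omega, hp⟩, by omega⟩
    · apply Finset.sum_congr _ (fun _ _ => rfl)
      unfold PX
      ext p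
      simp
  have h5 : ∑ p ∈ PX X, Real.log p ≤ ∑ _p ∈ PX X, Real.log X := by
    refine Finset.sum_le_sum fun p hp => ?_
    have hp0 : (0 : ℝ) < p := by exact_mod_cast (PX_prime hp).pos
    exact Real.log_le_log hp0 (by exact_mod_cast PX_le hp)
  rw [Finset.sum_const, nsmul_eq_mul] at h5
  have hl : 0 < Real.log 2 := Real.log_pos (by norm_num)
  nlinarith

/-- The main inequality: if the polynomials of degree at most `D` do not separate the points. -/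
lemma main_ineq (m : ℕ) (hm : 1 ≤ m) (n X Q D : ℕ) (hX : 10 ^ 8 ≤ X)
    (S : Finset (Fin (m + 1) → ℤ)) (hS : ∀ x ∈ S, ∑ i, x i ^ 2 = (n : ℤ))
    (hD : 2 * ((m + 1) * X) ≤ D) (hnot : ¬ Inj S D)
    (hQ : ∀ N : ℕ, 0 < N → N ≤ 4 * (Nat.sqrt n) ^ 2 * (16 * Nat.sqrt n / X) ^ 2 * (m ^ 2 + m) +
      2 * Nat.sqrt n → N.divisors.card ≤ Q) :
    1 ≤ 16 * Nat.sqrt n / X ∧
      (PX X).card ≤ 2 * ((2 * (16 * Nat.sqrt n / X) + 1) ^ m * (2 * Q)) := by
  classical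
  unfold Inj at hnot
  push Not at hnot
  obtain ⟨a, hkill, x₀, hx₀, hax₀⟩ := hnot
  set T : Finset (Fin (m + 1) → ℤ) := S.filter (fun x => a x ≠ 0) with hT
  have hTne : T.Nonempty := ⟨x₀, by rw [hT, Finset.mem_filter]; exact ⟨hx₀, hax₀⟩⟩
  have haT : ∀ x ∈ T, a x ≠ 0 := by
    intro x hx
    rw [hT, Finset.mem_filter] at hx
    exact hx.2
  have hST : ∀ x ∈ T, ∑ i, x i ^ 2 = (n : ℤ) := by
    intro x hx
    rw [hT, Finset.mem_filter] at hx
    exact hS x hx.1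
  have hkillT : ∀ F, IP D F → ∑ x ∈ T, a x * ((F x : ℤ) : ℂ) = 0 := by
    intro F hF
    rw [← hkill F hF, hT, Finset.sum_filter]
    refine Finset.sum_congr rfl fun x _ => ?_
    by_cases h : a x = 0
    · simp [h]
    · simp [h]
  obtain ⟨x, hxT, hcard⟩ := exists_partners T hTne a haT D (PX X) (fun p hp => PX_prime hp)
    (fun p hp => by
      have h1 := PX_le hp
      calc 2 * ((m + 1) * (p - 1)) ≤ 2 * ((m + 1) * X) := by
            gcongr
            omega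
        _ ≤ D := hD) hkillT
  set P' := (PX X).filter (fun p => Partner T p x) with hP'
  have hP'P : ∀ p ∈ P', p ∈ PX X ∧ Partner T p x := by
    intro p hp
    rw [hP', Finset.mem_filter] at hp
    exact hp
  -- the vectors
  have hex : ∀ p : ℕ, ∃ v : Fin (m + 1) → ℤ, p ∈ P' → (v ≠ 0 ∧ (fun i => x i + p * v i) ∈ T) := by
    intro p
    by_cases hp : p ∈ P'
    · obtain ⟨y, hyT, hyx, hdvd⟩ := (hP'P p hp).2
      choose v hv using hdvd
      refine ⟨v, fun _ => ⟨?_, ?_⟩⟩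
      · intro h0
        apply hyx
        funext i
        have := hv i
        rw [h0] at this
        simp only [Pi.zero_apply, mul_zero] at this
        linarith
      · have : (fun i => x i + (p : ℤ) * v i) = y := by
          funext i
          have := hv i
          linarith
        rw [this]
        exact hyT
    · exact ⟨0, fun h => absurd h hp⟩
  choose v hv using hex
  set Λ := Nat.sqrt n with hΛ
  have hcoord : ∀ y ∈ T, ∀ i, |y i| ≤ (Λ : ℤ) := by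
    intro y hy i
    have h1 : y i ^ 2 ≤ ∑ j, y j ^ 2 :=
      Finset.single_le_sum (f := fun j => y j ^ 2) (fun j _ => sq_nonneg _) (Finset.mem_univ i)
    rw [hST y hy] at h1
    have h2 : (y i).natAbs * (y i).natAbs ≤ n := by
      zify
      rw [abs_mul_abs_self]
      nlinarith
    have h3 : (y i).natAbs ≤ Λ := by rw [hΛ]; exact Nat.le_sqrt.2 h2
    rw [← Int.natCast_natAbs]
    exact_mod_cast h3
  have hvR : ∀ p ∈ P', ∀ i, |v p i| ≤ ((16 * Λ / X : ℕ) : ℤ) := by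
    intro p hp i
    have h1 := hcoord _ (hv p hp).2 i
    have h2 := hcoord x hxT i
    have h3 : |(p : ℤ) * v p i| ≤ 2 * Λ := by
      have : (p : ℤ) * v p i = (x i + p * v p i) - x i := by ring
      rw [this]
      calc |(x i + (p : ℤ) * v p i) - x i| ≤ |x i + (p : ℤ) * v p i| + |x i| := abs_sub _ _
        _ ≤ 2 * Λ := by linarith
    have h4 := PX_gt (hP'P p hp).1
    rw [abs_mul, abs_of_nonneg (by positivity : (0 : ℤ) ≤ (p : ℤ))] at h3
    have h5 : (v p i).natAbs * X ≤ 16 * Λ := by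
      have h6 : p * (v p i).natAbs ≤ 2 * Λ := by
        zify
        exact h3
      calc (v p i).natAbs * X ≤ (v p i).natAbs * (8 * p) := Nat.mul_le_mul_left _ h4.le
        _ = 8 * (p * (v p i).natAbs) := by ring
        _ ≤ 8 * (2 * Λ) := Nat.mul_le_mul_left _ h6
        _ = 16 * Λ := by ring
    have h7 : (v p i).natAbs ≤ 16 * Λ / X := (Nat.le_div_iff_mul_le (by omega)).2 h5
    rw [← Int.natCast_natAbs]
    exact_mod_cast h7
  have heq : ∀ p ∈ P', (p : ℤ) * ∑ i, v p i ^ 2 + 2 * ∑ i, x i * v p i = 0 := by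
    intro p hp
    have h1 := hST _ (hv p hp).2
    have h2 := hST x hxT
    have h3 : ∑ i, (x i + (p : ℤ) * v p i) ^ 2 =
        ∑ i, x i ^ 2 + p * ((p : ℤ) * ∑ i, v p i ^ 2 + 2 * ∑ i, x i * v p i) := by
      simp only [Finset.mul_sum, ← Finset.sum_add_distrib]
      exact Finset.sum_congr rfl fun i _ => by ring
    rw [h3, h2] at h1
    have hp0 : (p : ℤ) ≠ 0 := by exact_mod_cast (PX_prime (hP'P p hp).1).ne_zero
    have h4 : (p : ℤ) * ((p : ℤ) * ∑ i, v p i ^ 2 + 2 * ∑ i, x i * v p i) = 0 := by linarith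
    exact (mul_eq_zero.1 h4).resolve_left hp0
  have hcount := count_partners m x Λ (16 * Λ / X) Q (hcoord x hxT) hQ P'
    (fun p hp => (PX_prime (hP'P p hp).1).pos) v (fun p hp => (hv p hp).1) hvR heq
  refine ⟨?_, hcard.trans (Nat.mul_le_mul_left 2 hcount)⟩
  -- `R ≥ 1`
  by_contra hR
  have hR0 : 16 * Λ / X = 0 := Nat.lt_one_iff.1 (not_le.1 hR)
  have hempty : P' = ∅ := by
    rw [Finset.eq_empty_iff_forall_notMem]
    intro p hp
    apply (hv p hp).1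
    funext i
    have h1 := hvR p hp i
    rw [hR0] at h1
    simpa using h1
  rw [hempty, Finset.card_empty] at hcard
  have h0 : (PX X).card = 0 := by omega
  have h1 := PX_card X hX
  rw [h0] at h1
  have hX0 : (0 : ℝ) < X := by
    have : 0 < X := by omega
    exact_mod_cast this
  have hl : 0 < Real.log 2 := Real.log_pos (by norm_num)
  have : 0 < Real.log 2 / 2 * (X : ℝ) := by positivity
  simp at h1
  linarith

/-- The interpolation degree of the lattice points on the sphere `|x|² = n` in dimension `d`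
is at most `C n^((1 - 1/d)/2 + ε)`. -/
theorem sphere_inj (d : ℕ) (hd : 2 ≤ d) (ε : ℝ) (hε : 0 < ε) : ∃ C : ℝ, 0 < C ∧ ∀ n : ℕ, 1 ≤ n →
    ∀ S : Finset (Fin d → ℤ), (∀ x ∈ S, ∑ i, x i ^ 2 = (n : ℤ)) →
    ∀ e : ℕ, C * (n : ℝ) ^ ((1 - 1 / (d : ℝ)) / 2 + ε) ≤ e → Inj S e := by
  obtain ⟨m, rfl⟩ : ∃ m, d = m + 1 := ⟨d - 1, by omega⟩
  have hm : 1 ≤ m := by omega
  set δ : ℝ := (m + 1) * ε / 3 with hδ
  have hδ0 : 0 < δ := by positivity
  obtain ⟨Cδ, hCδ1, hCδ⟩ := Pool.Agent.H13.DivisorBound.card_divisors_le_rpow δ hδ0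
  set cm : ℝ := 1024 * (m ^ 2 + m) + 2 with hcm
  have hcm0 : 0 < cm := by positivity
  set K : ℝ := 2 / Real.log 2 * (4 * 48 ^ m * (Cδ * cm ^ δ) * (16 ^ δ / δ)) with hK
  have hl2 : 0 < Real.log 2 := Real.log_pos (by norm_num)
  have hK0 : 0 < K := by
    have : 0 < Cδ := by linarith
    positivity
  set C1 : ℝ := K + 10 ^ 8 + 1 with hC1
  have hC10 : 1 ≤ C1 := by
    rw [hC1]; linarith [show (0 : ℝ) ≤ 10 ^ 8 by norm_num]
  refine ⟨2 * (m + 1) * (C1 + 1), by positivity, ?_⟩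
  intro n hn S hS e he
  set s : ℝ := (1 - 1 / ((m + 1 : ℕ) : ℝ)) / 2 + ε with hs
  have hnR : (1 : ℝ) ≤ n := by exact_mod_cast hn
  have hn0 : (0 : ℝ) < n := by linarith
  have hm1 : (0 : ℝ) < ((m + 1 : ℕ) : ℝ) := by positivity
  have hs0 : 0 ≤ s := by
    have : 1 / ((m + 1 : ℕ) : ℝ) ≤ 1 := by
      rw [div_le_one hm1]
      exact_mod_cast Nat.succ_le_succ (Nat.zero_le m)
    rw [hs]
    linarith
  have hns : 1 ≤ (n : ℝ) ^ s := Real.one_le_rpow hnR hs0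
  set X : ℕ := ⌈C1 * (n : ℝ) ^ s⌉₊ with hX
  have hXge : C1 * (n : ℝ) ^ s ≤ X := Nat.le_ceil _
  have hXle : (X : ℝ) ≤ (C1 + 1) * (n : ℝ) ^ s := by
    have := (Nat.ceil_lt_add_one (show 0 ≤ C1 * (n : ℝ) ^ s by positivity)).le
    calc (X : ℝ) ≤ C1 * (n : ℝ) ^ s + 1 := this
      _ ≤ C1 * (n : ℝ) ^ s + (n : ℝ) ^ s := by linarith
      _ = _ := by ring
  have hX8 : 10 ^ 8 ≤ X := by
    have h1 : (10 : ℝ) ^ 8 ≤ X := by
      calc (10 : ℝ) ^ 8 ≤ C1 := by rw [hC1]; linarith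
        _ = C1 * 1 := (mul_one _).symm
        _ ≤ C1 * (n : ℝ) ^ s := mul_le_mul_of_nonneg_left hns (by linarith)
        _ ≤ X := hXge
    exact_mod_cast h1
  have hD : 2 * ((m + 1) * X) ≤ e := by
    have h1 : ((2 * ((m + 1) * X) : ℕ) : ℝ) ≤ e := by
      push_cast
      refine le_trans ?_ he
      calc 2 * (((m : ℝ) + 1) * X) ≤ 2 * (((m : ℝ) + 1) * ((C1 + 1) * (n : ℝ) ^ s)) := by gcongr
        _ = 2 * (m + 1) * (C1 + 1) * (n : ℝ) ^ s := by ring
    exact_mod_cast h1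
  by_contra hnot
  set Λ := Nat.sqrt n with hΛ
  set R := 16 * Λ / X with hR
  set Q : ℕ := ⌊Cδ * (cm * (n : ℝ) ^ 2) ^ δ⌋₊ with hQdef
  have hΛ2 : Λ ^ 2 ≤ n := Nat.sqrt_le' n
  have hΛn : Λ ≤ n := Nat.sqrt_le_self n
  have hRΛ : R ≤ 16 * Λ := Nat.div_le_self _ _
  have hNmax : 4 * Λ ^ 2 * R ^ 2 * (m ^ 2 + m) + 2 * Λ ≤ (1024 * (m ^ 2 + m) + 2) * n ^ 2 := by
    have h1 : R ^ 2 ≤ 256 * n := by
      calc R ^ 2 ≤ (16 * Λ) ^ 2 := Nat.pow_le_pow_left hRΛ 2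
        _ = 256 * Λ ^ 2 := by ring
        _ ≤ 256 * n := Nat.mul_le_mul_left _ hΛ2
    calc 4 * Λ ^ 2 * R ^ 2 * (m ^ 2 + m) + 2 * Λ
        ≤ 4 * n * (256 * n) * (m ^ 2 + m) + 2 * (n * n) := by
          gcongr
          nlinarith
      _ = (1024 * (m ^ 2 + m) + 2) * n ^ 2 := by ring
  have hQ : ∀ N : ℕ, 0 < N → N ≤ 4 * Λ ^ 2 * R ^ 2 * (m ^ 2 + m) + 2 * Λ → N.divisors.card ≤ Q := by
    intro N hN0 hN
    apply Nat.le_floor
    refine (hCδ N hN0.ne').trans ?_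
    apply mul_le_mul_of_nonneg_left _ (by linarith)
    apply Real.rpow_le_rpow (by positivity) _ hδ0.le
    have h1 : (N : ℝ) ≤ (((1024 * (m ^ 2 + m) + 2) * n ^ 2 : ℕ) : ℝ) := by
      exact_mod_cast hN.trans hNmax
    push_cast at h1
    rw [hcm]
    exact h1
  obtain ⟨hR1, hcard⟩ := main_ineq m hm n X Q e hX8 S hS hD hnot hQ
  have hXpos : (0 : ℝ) < X := by
    have : 0 < X := by omega
    exact_mod_cast this
  -- real estimates
  have hΛR : (Λ : ℝ) ≤ (n : ℝ) ^ (1 / 2 : ℝ) := by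
    rw [← Real.sqrt_eq_rpow]
    apply Real.le_sqrt_of_sq_le
    exact_mod_cast hΛ2
  have hRX : (R : ℝ) ≤ 16 * (n : ℝ) ^ (1 / 2 : ℝ) / X := by
    have h1 : (R : ℝ) ≤ ((16 * Λ : ℕ) : ℝ) / X := Nat.cast_div_le
    refine h1.trans ?_
    push_cast
    gcongr
  have hR1' : (1 : ℝ) ≤ R := by exact_mod_cast hR1
  have h2R : (2 * (R : ℝ) + 1) ≤ 48 * (n : ℝ) ^ (1 / 2 : ℝ) / X := by
    calc (2 * (R : ℝ) + 1) ≤ 3 * R := by linarith
      _ ≤ 3 * (16 * (n : ℝ) ^ (1 / 2 : ℝ) / X) := by linarith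
      _ = _ := by ring
  have hQR : (Q : ℝ) ≤ Cδ * cm ^ δ * (n : ℝ) ^ (2 * δ) := by
    have h1 : (Q : ℝ) ≤ Cδ * (cm * (n : ℝ) ^ 2) ^ δ := Nat.floor_le (by
      have : 0 < Cδ := by linarith
      positivity)
    rw [Real.mul_rpow hcm0.le (by positivity), ← Real.rpow_natCast, ← Real.rpow_mul hn0.le] at h1
    push_cast at h1
    linarith
  have hXn : (X : ℝ) ≤ 16 * (n : ℝ) := by
    have h1 : 1 * X ≤ 16 * Λ := (Nat.le_div_iff_mul_le (by omega)).1 hR1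
    have h2 : X ≤ 16 * n := by
      rw [one_mul] at h1
      exact h1.trans (Nat.mul_le_mul_left _ hΛn)
    exact_mod_cast h2
  have hlogX : Real.log X ≤ 16 ^ δ / δ * (n : ℝ) ^ δ := by
    have h1 := Real.log_le_rpow_div hXpos.le hδ0
    have h2 : (X : ℝ) ^ δ ≤ (16 * (n : ℝ)) ^ δ := Real.rpow_le_rpow hXpos.le hXn hδ0.le
    rw [Real.mul_rpow (by norm_num) hn0.le] at h2
    calc Real.log X ≤ (X : ℝ) ^ δ / δ := h1
      _ ≤ (16 ^ δ * (n : ℝ) ^ δ) / δ := div_le_div_of_nonneg_right h2 hδ0.le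
      _ = _ := by ring
  have hlogX0 : 0 ≤ Real.log X := Real.log_natCast_nonneg X
  have hPX := PX_card X hX8
  have hcardR : ((PX X).card : ℝ) ≤ 4 * (48 * (n : ℝ) ^ (1 / 2 : ℝ) / X) ^ m *
      (Cδ * cm ^ δ * (n : ℝ) ^ (2 * δ)) := by
    have h1 : ((PX X).card : ℝ) ≤ ((2 * ((2 * R + 1) ^ m * (2 * Q)) : ℕ) : ℝ) := by
      exact_mod_cast hcard
    push_cast at h1
    refine h1.trans ?_
    calc 2 * ((2 * (R : ℝ) + 1) ^ m * (2 * Q)) = 4 * (2 * (R : ℝ) + 1) ^ m * Q := by ring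
      _ ≤ 4 * (48 * (n : ℝ) ^ (1 / 2 : ℝ) / X) ^ m * (Cδ * cm ^ δ * (n : ℝ) ^ (2 * δ)) := by
        gcongr
  have hfin : Real.log 2 / 2 * X ≤ (4 * (48 * (n : ℝ) ^ (1 / 2 : ℝ) / X) ^ m *
      (Cδ * cm ^ δ * (n : ℝ) ^ (2 * δ))) * (16 ^ δ / δ * (n : ℝ) ^ δ) := by
    refine hPX.trans ?_
    have : 0 ≤ ((PX X).card : ℝ) := by positivity
    exact mul_le_mul hcardR hlogX hlogX0 (by
      have : 0 < Cδ := by linarith
      positivity)
  -- multiply by `X ^ m`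
  have hpow : (X : ℝ) ^ (m + 1) ≤ K * (n : ℝ) ^ ((m : ℝ) / 2 + 3 * δ) := by
    have h1 : (48 * (n : ℝ) ^ (1 / 2 : ℝ) / X) ^ m = 48 ^ m * (n : ℝ) ^ ((m : ℝ) / 2) / (X : ℝ) ^ m := by
      rw [div_pow, mul_pow, ← Real.rpow_natCast ((n : ℝ) ^ (1 / 2 : ℝ)) m, ← Real.rpow_mul hn0.le]
      congr 3
      ring
    have h2 : (n : ℝ) ^ ((m : ℝ) / 2 + 3 * δ) =
        (n : ℝ) ^ ((m : ℝ) / 2) * (n : ℝ) ^ (2 * δ) * (n : ℝ) ^ δ := by
      rw [← Real.rpow_add hn0, ← Real.rpow_add hn0]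
      congr 1
      ring
    rw [h1] at hfin
    have hXm : 0 < (X : ℝ) ^ m := by positivity
    have h3 : Real.log 2 / 2 * X * (X : ℝ) ^ m ≤
        (4 * (48 ^ m * (n : ℝ) ^ ((m : ℝ) / 2)) * (Cδ * cm ^ δ * (n : ℝ) ^ (2 * δ))) *
          (16 ^ δ / δ * (n : ℝ) ^ δ) := by
      have h4 := mul_le_mul_of_nonneg_right hfin hXm.le
      refine h4.trans (le_of_eq ?_)
      field_simp
    rw [h2, hK]
    have h5 : (X : ℝ) ^ (m + 1) = 2 / Real.log 2 * (Real.log 2 / 2 * X * (X : ℝ) ^ m) := by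
      rw [pow_succ]
      field_simp
    rw [h5]
    calc 2 / Real.log 2 * (Real.log 2 / 2 * X * (X : ℝ) ^ m)
        ≤ 2 / Real.log 2 * ((4 * (48 ^ m * (n : ℝ) ^ ((m : ℝ) / 2)) *
          (Cδ * cm ^ δ * (n : ℝ) ^ (2 * δ))) * (16 ^ δ / δ * (n : ℝ) ^ δ)) :=
          mul_le_mul_of_nonneg_left h3 (by positivity)
      _ = _ := by ring
  have hlow : C1 * (n : ℝ) ^ ((m : ℝ) / 2 + 3 * δ) ≤ (X : ℝ) ^ (m + 1) := by
    have h1 : (C1 * (n : ℝ) ^ s) ^ (m + 1) ≤ (X : ℝ) ^ (m + 1) :=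
      pow_le_pow_left₀ (by positivity) hXge _
    have h2 : ((n : ℝ) ^ s) ^ (m + 1) = (n : ℝ) ^ ((m : ℝ) / 2 + 3 * δ) := by
      rw [← Real.rpow_natCast, ← Real.rpow_mul hn0.le]
      congr 1
      rw [hs, hδ]
      push_cast
      field_simp
      ring
    rw [mul_pow, h2] at h1
    have h3 : C1 ≤ C1 ^ (m + 1) := le_self_pow₀ hC10 (by omega)
    refine le_trans ?_ h1
    exact mul_le_mul_of_nonneg_right h3 (by positivity)
  have hnn : 0 < (n : ℝ) ^ ((m : ℝ) / 2 + 3 * δ) := by positivity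
  have hcon : C1 * (n : ℝ) ^ ((m : ℝ) / 2 + 3 * δ) ≤ K * (n : ℝ) ^ ((m : ℝ) / 2 + 3 * δ) :=
    hlow.trans hpow
  have := le_of_mul_le_mul_right hcon hnn
  rw [hC1] at this
  linarith [show (0 : ℝ) ≤ 10 ^ 8 by norm_num]

end Pool.Agent.H221.TV
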